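import Pool.Agent.H77.CmB

namespace Pool.Agent.Results.MP_24384b_lc.Differ

open Pool.Agent.H77.Cm

theorem result : ∃ L : Set (List Bool),
    (∀ c, 1 ≤ c → ∃ M : CM Bool, QR M ∧ Det M ∧ NoEnd M ∧ LR c M = L) ∧
    ∀ c, ¬ ∃ B : CM Bool, QR B ∧ Det B ∧ Blind B ∧ LR c B = L :=
  ⟨LL, fun c hc => ⟨A, A_qr, A_det, fun _ _ => rfl, A_lang c hc⟩,
    fun c ⟨B, h1, h2, h3, h4⟩ => lower B h1 h2 h3 c h4⟩

end Pool.Agent.Results.MP_24384b_lc.Differ
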